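import Mathlib

set_option autoImplicit false

/-! # Midscribed tetrahedra in the unit 3-sphere and in hyperbolic 3-space: definitions -/

open MeasureTheory InnerProductGeometry
open scoped RealInnerProductSpace ENNReal

namespace Pool.Agent.Hhelper43.Mid

/-- The Euclidean space `ℝ⁴`, whose unit sphere is the round unit 3-sphere. -/
abbrev E4 := EuclideanSpace ℝ (Fin 4)

/-- The Euclidean space `ℝ³`, whose open unit ball is the projective (Klein) model of hyperbolic
3-space. -/
abbrev E3 := EuclideanSpace ℝ (Fin 3)

/-! ## The unit 3-sphere -/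

/-- The edge between the points `u`, `v` of the unit 3-sphere is tangent to the sphere
`{x : angle x c = r}`, the boundary of the geodesic ball of radius `r` and centre `c`: some point
`P` of the 3-sphere lies on the edge (it is a nonnegative combination of `u` and `v`), lies on
the boundary sphere, and the complete geodesic through `u` and `v` (the great circle in the plane
spanned by `u` and `v`) is tangent to the boundary sphere at `P`: every vector of that plane which
is orthogonal to `P` (tangent to the great circle at `P`) is orthogonal to `c` (tangent to the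
boundary sphere at `P`). -/
def SphTangent (c : E4) (r : ℝ) (u v : E4) : Prop :=
  ∃ P : E4, ‖P‖ = 1 ∧ (∃ a b : ℝ, 0 ≤ a ∧ 0 ≤ b ∧ P = a • u + b • v) ∧ angle P c = r ∧
    ∀ w ∈ Submodule.span ℝ ({u, v} : Set E4), ⟪w, P⟫ = 0 → ⟪w, c⟫ = 0

/-- The points `v 0, v 1, v 2, v 3` of the unit 3-sphere are the vertices of a tetrahedron
(they do not lie on a common great 2-sphere and they lie in an open hemisphere) midscribed to the
geodesic ball of centre `c` and radius `r`. -/
structure SphMidscribed (c : E4) (r : ℝ) (v : Fin 4 → E4) : Prop where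
  unit : ∀ i, ‖v i‖ = 1
  indep : LinearIndependent ℝ v
  hemi : ∃ u : E4, ∀ i, 0 < ⟪u, v i⟫
  edges : ∀ i j, i ≠ j → SphTangent c r (v i) (v j)

/-- The geodesic convex hull in the unit 3-sphere of the points `v i` of an open hemisphere: the
points of the sphere in the convex cone generated by the `v i`. -/
def sphHull (v : Fin 4 → E4) : Set (Metric.sphere (0 : E4) 1) :=
  {x | ∃ a : Fin 4 → ℝ, (∀ i, 0 ≤ a i) ∧ (x : E4) = ∑ i, a i • v i}

/-- The volume of the tetrahedron with vertices `v i`: the standard (Riemannian) measure on the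
unit 3-sphere, of total mass `2π²`. -/
noncomputable def sphVol (v : Fin 4 → E4) : ℝ≥0∞ :=
  (volume : Measure E4).toSphere (sphHull v)

/-- The set of the volumes of the tetrahedra midscribed to the geodesic ball of centre `c` and
radius `r` of the unit 3-sphere. -/
def sphVolumes (c : E4) (r : ℝ) : Set ℝ≥0∞ :=
  {V | ∃ v : Fin 4 → E4, SphMidscribed c r v ∧ V = sphVol v}

/-! ## Hyperbolic 3-space, in the projective model -/

/-- In the projective model of hyperbolic 3-space, centred at the centre of the ball, the geodesic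
ball of radius `r` is the Euclidean ball `{‖x‖ ≤ tanh r}` and geodesics are straight. The edge
`[u, v]` is tangent to this ball: a point `P` of the segment lies on the boundary sphere and the
line through `u` and `v` is tangent to the sphere at `P`. -/
def HypTangent (r : ℝ) (u v : E3) : Prop :=
  ∃ P ∈ segment ℝ u v, ‖P‖ = Real.tanh r ∧ ⟪v - u, P⟫ = 0

/-- The points `v 0, v 1, v 2, v 3` of hyperbolic 3-space (the open unit ball) are the vertices of
a tetrahedron midscribed to the geodesic ball of radius `r` centred at the origin. -/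
structure HypMidscribed (r : ℝ) (v : Fin 4 → E3) : Prop where
  inside : ∀ i, ‖v i‖ < 1
  indep : AffineIndependent ℝ v
  edges : ∀ i j, i ≠ j → HypTangent r (v i) (v j)

/-- The hyperbolic volume of the geodesic convex hull of the points `v i`, in the projective
model (where it is the Euclidean convex hull and the volume element is `(1 - |x|²)⁻² dx`). -/
noncomputable def hypVol (v : Fin 4 → E3) : ℝ≥0∞ :=
  ∫⁻ x in convexHull ℝ (Set.range v), ENNReal.ofReal (((1 - ‖x‖ ^ 2) ^ 2)⁻¹)

/-- The set of the volumes of the tetrahedra midscribed to a geodesic ball of radius `r` of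
hyperbolic 3-space. -/
def hypVolumes (r : ℝ) : Set ℝ≥0∞ :=
  {V | ∃ v : Fin 4 → E3, HypMidscribed r v ∧ V = hypVol v}

/-! ## Tangency of two caps gives tangency of an edge -/

/-- Spherical case. `u, w` are unit vectors orthogonal to the centre `c`, at angle `α + β`. The
points in the directions `u + κ cos α c` and `w + κ cos β c` (`κ = cot r`) are joined by an edge
tangent to the ball of radius `r`. -/
lemma sph_tangent_of_caps {c u w : E4} {r α β : ℝ} (hc : ‖c‖ = 1) (hu : ‖u‖ = 1) (hw : ‖w‖ = 1)
    (huc : ⟪u, c⟫ = 0) (hwc : ⟪w, c⟫ = 0) (hα : 0 < α) (hβ : 0 < β) (hαβ : α + β < Real.pi)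
    (huw : ⟪u, w⟫ = Real.cos (α + β)) (hr0 : 0 < r) (hr1 : r < Real.pi) {s t : ℝ}
    (hs : 0 < s) (ht : 0 < t) :
    SphTangent c r (s • (u + (Real.cos r / Real.sin r * Real.cos α) • c))
      (t • (w + (Real.cos r / Real.sin r * Real.cos β) • c)) := by
  have hsr : 0 < Real.sin r := Real.sin_pos_of_pos_of_lt_pi hr0 hr1
  have hsα : 0 < Real.sin α := Real.sin_pos_of_pos_of_lt_pi hα (by linarith)
  have hsβ : 0 < Real.sin β := Real.sin_pos_of_pos_of_lt_pi hβ (by linarith)
  have hsαβ : 0 < Real.sin (α + β) := Real.sin_pos_of_pos_of_lt_pi (by linarith) hαβ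
  set κ := Real.cos r / Real.sin r with hκ
  have hcu : ⟪c, u⟫ = 0 := by rw [real_inner_comm]; exact huc
  have hcw : ⟪c, w⟫ = 0 := by rw [real_inner_comm]; exact hwc
  have hwu : ⟪w, u⟫ = Real.cos (α + β) := by rw [real_inner_comm]; exact huw
  have huu : ⟪u, u⟫ = 1 := by rw [real_inner_self_eq_norm_sq, hu]; norm_num
  have hww : ⟪w, w⟫ = 1 := by rw [real_inner_self_eq_norm_sq, hw]; norm_num
  have hcc : ⟪c, c⟫ = 1 := by rw [real_inner_self_eq_norm_sq, hc]; norm_num
  have hκr : Real.sin r * κ = Real.cos r := by rw [hκ]; field_simp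
  set a := Real.sin r * Real.sin β / Real.sin (α + β) with ha
  set b := Real.sin r * Real.sin α / Real.sin (α + β) with hb
  have ha0 : 0 < a := by positivity
  have hb0 : 0 < b := by positivity
  have hab : a * Real.cos α + b * Real.cos β = Real.sin r := by
    rw [ha, hb]
    have h := Real.sin_add α β
    field_simp
    rw [h]; ring
  -- the inner products of `P` with the generators
  set U := u + (κ * Real.cos α) • c with hU
  set W := w + (κ * Real.cos β) • c with hW
  set P := a • U + b • W with hP
  have hPc : ⟪P, c⟫ = Real.cos r := by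
    simp only [hP, hU, hW, inner_add_left, inner_smul_left, huc, hwc, hcc]
    simp only [conj_trivial]
    calc a * (0 + κ * Real.cos α * 1) + b * (0 + κ * Real.cos β * 1)
        = κ * (a * Real.cos α + b * Real.cos β) := by ring
      _ = Real.cos r := by rw [hab, mul_comm]; exact hκr
  set K := Real.sin r * (1 + κ ^ 2) with hK
  have hsc : Real.sin r ^ 2 + Real.cos r ^ 2 = 1 := Real.sin_sq_add_cos_sq r
  have hone : Real.sin r * K = 1 := by
    have : Real.sin r * K = Real.sin r ^ 2 + (Real.sin r * κ) ^ 2 := by rw [hK]; ring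
    rw [this, hκr, hsc]
  have hK0 : K ≠ 0 := by
    intro h; rw [h, mul_zero] at hone; exact zero_ne_one hone
  have hUP : ⟪U, P⟫ = Real.cos α * K := by
    have e1 : ⟪U, P⟫ = a * (1 + κ ^ 2 * Real.cos α ^ 2)
        + b * (Real.cos (α + β) + κ ^ 2 * Real.cos α * Real.cos β) := by
      simp only [hP, hU, hW, inner_add_left, inner_add_right, inner_smul_left, inner_smul_right,
        huc, hcu, hcw, hcc, huu, huw]
      simp only [conj_trivial]
      ring
    have e2 : a + b * Real.cos (α + β) = Real.sin r * Real.cos α := by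
      rw [ha, hb]
      have h1 : Real.sin β = Real.sin (α + β) * Real.cos α - Real.cos (α + β) * Real.sin α := by
        rw [← Real.sin_sub]; congr 1; ring
      field_simp
      rw [h1]; ring
    rw [e1, hK]
    linear_combination e2 + κ ^ 2 * Real.cos α * hab
  have hWP : ⟪W, P⟫ = Real.cos β * K := by
    have e1 : ⟪W, P⟫ = b * (1 + κ ^ 2 * Real.cos β ^ 2)
        + a * (Real.cos (α + β) + κ ^ 2 * Real.cos α * Real.cos β) := by
      simp only [hP, hU, hW, inner_add_left, inner_add_right, inner_smul_left, inner_smul_right,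
        hwc, hcu, hcw, hcc, hww, hwu]
      simp only [conj_trivial]
      ring
    have e2 : b + a * Real.cos (α + β) = Real.sin r * Real.cos β := by
      rw [ha, hb]
      have h1 : Real.sin α = Real.sin (α + β) * Real.cos β - Real.cos (α + β) * Real.sin β := by
        rw [← Real.sin_sub]; congr 1; ring
      field_simp
      rw [h1]; ring
    rw [e1, hK]
    linear_combination e2 + κ ^ 2 * Real.cos β * hab
  have hPP : ⟪P, P⟫ = 1 := by
    have : ⟪P, P⟫ = a * ⟪U, P⟫ + b * ⟪W, P⟫ := by
      conv_lhs => rw [hP, inner_add_left, inner_smul_left, inner_smul_left]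
      rw [← hP]
      simp only [conj_trivial]
    rw [this, hUP, hWP]
    linear_combination K * hab + hone
  have hPn : ‖P‖ = 1 := by
    rw [real_inner_self_eq_norm_sq] at hPP
    nlinarith [norm_nonneg P]
  refine ⟨P, hPn, ⟨a / s, b / t, by positivity, by positivity, ?_⟩, ?_, ?_⟩
  · rw [smul_smul, smul_smul, div_mul_cancel₀ _ hs.ne', div_mul_cancel₀ _ ht.ne']
  · unfold InnerProductGeometry.angle
    rw [hPn, hc, hPc]
    simp only [mul_one, div_one]
    exact Real.arccos_cos hr0.le hr1.le
  · intro z hz hzP
    obtain ⟨x, y, rfl⟩ := Submodule.mem_span_pair.1 hz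
    simp only [inner_add_left, inner_smul_left, conj_trivial, hUP, hWP] at hzP
    have h1 : x * s * Real.cos α + y * t * Real.cos β = 0 := by
      have : K * (x * s * Real.cos α + y * t * Real.cos β) = 0 := by linear_combination hzP
      rcases mul_eq_zero.1 this with h | h
      · exact absurd h hK0
      · exact h
    have hUc : ⟪U, c⟫ = κ * Real.cos α := by
      simp [hU, inner_add_left, inner_smul_left, huc, hc]
    have hWc : ⟪W, c⟫ = κ * Real.cos β := by
      simp [hW, inner_add_left, inner_smul_left, hwc, hc]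
    simp only [inner_add_left, inner_smul_left, conj_trivial, hUc, hWc]
    linear_combination κ * h1

/-- Hyperbolic case: the points `(ρ / cos α) u` and `(ρ / cos β) w` (`ρ = tanh r`) are joined by an
edge tangent to the ball of radius `r`. -/
lemma hyp_tangent_of_caps {u w : E3} {r α β : ℝ} (hu : ‖u‖ = 1) (hw : ‖w‖ = 1)
    (hα : 0 < α) (hβ : 0 < β) (hα' : α < Real.pi / 2) (hβ' : β < Real.pi / 2)
    (huw : ⟪u, w⟫ = Real.cos (α + β)) (hr0 : 0 < r) :
    HypTangent r ((Real.tanh r / Real.cos α) • u) ((Real.tanh r / Real.cos β) • w) := by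
  have hρ : 0 < Real.tanh r := by
    rw [Real.tanh_eq_sinh_div_cosh]; exact div_pos (Real.sinh_pos_iff.2 hr0) (Real.cosh_pos r)
  set ρ := Real.tanh r with hρd
  have hsα : 0 < Real.sin α := Real.sin_pos_of_pos_of_lt_pi hα (by linarith [Real.pi_pos])
  have hsβ : 0 < Real.sin β := Real.sin_pos_of_pos_of_lt_pi hβ (by linarith [Real.pi_pos])
  have hcα : 0 < Real.cos α := Real.cos_pos_of_mem_Ioo ⟨by linarith, hα'⟩
  have hcβ : 0 < Real.cos β := Real.cos_pos_of_mem_Ioo ⟨by linarith, hβ'⟩
  have hsαβ : 0 < Real.sin (α + β) := Real.sin_pos_of_pos_of_lt_pi (by linarith) (by linarith)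
  have hwu : ⟪w, u⟫ = Real.cos (α + β) := by rw [real_inner_comm]; exact huw
  have huu : ⟪u, u⟫ = 1 := by rw [real_inner_self_eq_norm_sq, hu]; norm_num
  have hww : ⟪w, w⟫ = 1 := by rw [real_inner_self_eq_norm_sq, hw]; norm_num
  set a := Real.sin β / Real.sin (α + β) with ha
  set b := Real.sin α / Real.sin (α + β) with hb
  have ha0 : 0 < a := by positivity
  have hb0 : 0 < b := by positivity
  have hab : a * Real.cos α + b * Real.cos β = 1 := by
    rw [ha, hb]
    have h := Real.sin_add α β
    field_simp
    rw [h]; ring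
  set m := a • u + b • w with hm
  have hum : ⟪u, m⟫ = Real.cos α := by
    have e1 : ⟪u, m⟫ = a + b * Real.cos (α + β) := by
      simp only [hm, inner_add_right, inner_smul_right, huu, huw, mul_one]
    rw [e1, ha, hb]
    have h1 : Real.sin β = Real.sin (α + β) * Real.cos α - Real.cos (α + β) * Real.sin α := by
      rw [← Real.sin_sub]; congr 1; ring
    field_simp
    rw [h1]; ring
  have hwm : ⟪w, m⟫ = Real.cos β := by
    have e1 : ⟪w, m⟫ = a * Real.cos (α + β) + b := by
      simp only [hm, inner_add_right, inner_smul_right, hww, hwu, mul_one]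
    rw [e1, ha, hb]
    have h1 : Real.sin α = Real.sin (α + β) * Real.cos β - Real.cos (α + β) * Real.sin β := by
      rw [← Real.sin_sub]; congr 1; ring
    field_simp
    rw [h1]; ring
  have hmm : ‖m‖ = 1 := by
    have : ⟪m, m⟫ = 1 := by
      have : ⟪m, m⟫ = a * ⟪u, m⟫ + b * ⟪w, m⟫ := by
        conv_lhs => rw [hm, inner_add_left, inner_smul_left, inner_smul_left]
        rw [← hm]
        simp only [conj_trivial]
      rw [this, hum, hwm, hab]
    rw [real_inner_self_eq_norm_sq] at this
    nlinarith [norm_nonneg m]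
  refine ⟨ρ • m, ?_, ?_, ?_⟩
  · refine ⟨a * Real.cos α, b * Real.cos β, by positivity, by positivity, hab, ?_⟩
    rw [hm, smul_add, smul_smul, smul_smul, smul_smul, smul_smul]
    congr 2 <;> field_simp
  · rw [norm_smul, hmm, Real.norm_eq_abs, abs_of_pos hρ, mul_one]
  · simp only [inner_sub_left, inner_smul_left, inner_smul_right, hum, hwm, conj_trivial]
    field_simp
    ring

end Pool.Agent.Hhelper43.Mid
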