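import Pool.Agent.Hhelper43.Mid.Sphere

set_option autoImplicit false

/-! # Small midscribed tetrahedra in hyperbolic 3-space -/

open MeasureTheory InnerProductGeometry Filter Topology Metric
open scoped RealInnerProductSpace ENNReal

namespace Pool.Agent.Hhelper43.Mid

/-- The vector of `ℝ³` with coordinates `x, y, z`. -/
noncomputable def vec3 (x y z : ℝ) : E3 := WithLp.toLp 2 ![x, y, z]

lemma inner_vec3 (x y z x' y' z' : ℝ) :
    ⟪vec3 x y z, vec3 x' y' z'⟫ = x * x' + y * y' + z * z' := by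
  unfold vec3
  rw [PiLp.inner_apply, Fin.sum_univ_three]
  simp
  ring

/-- The directions of the centres of the four caps, in `ℝ³`. -/
noncomputable def dir3 (ψ : ℝ) : Fin 4 → E3 :=
  ![vec3 0 0 (-1), vec3 (Real.sin ψ) 0 (Real.cos ψ),
    vec3 (-(Real.sin ψ / 2)) (Real.sqrt 3 / 2 * Real.sin ψ) (Real.cos ψ),
    vec3 (-(Real.sin ψ / 2)) (-(Real.sqrt 3 / 2 * Real.sin ψ)) (Real.cos ψ)]

/-- The vertices of the family in the projective model. -/
noncomputable def hvert (r ψ : ℝ) (i : Fin 4) : E3 :=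
  (Real.tanh r / Real.cos (rad ψ i)) • dir3 ψ i

/-- The linear parts of the affine functions vanishing on the faces. -/
noncomputable def nor3 (ψ : ℝ) : Fin 4 → E3 :=
  ![vec3 0 0 (-Real.cos (th ψ)),
    vec3 (2 * Real.sin (ψ + th ψ)) 0 (-Real.cos (ψ + th ψ)),
    vec3 (-Real.sin (ψ + th ψ)) (Real.sqrt 3 * Real.sin (ψ + th ψ)) (-Real.cos (ψ + th ψ)),
    vec3 (-Real.sin (ψ + th ψ)) (-(Real.sqrt 3 * Real.sin (ψ + th ψ))) (-Real.cos (ψ + th ψ))]

/-- The constant terms of the affine functions vanishing on the faces. -/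
noncomputable def off3 (r ψ : ℝ) : Fin 4 → ℝ :=
  ![Real.tanh r * Real.cos ψ, Real.tanh r, Real.tanh r, Real.tanh r]

variable {ψ r : ℝ}

lemma norm_dir3 (i : Fin 4) : ‖dir3 ψ i‖ = 1 := by
  have h3 : Real.sqrt 3 ^ 2 = 3 := Real.sq_sqrt (by norm_num)
  have hsc := Real.sin_sq_add_cos_sq ψ
  have key : ∀ v : E3, ⟪v, v⟫ = 1 → ‖v‖ = 1 := by
    intro v hv
    rw [real_inner_self_eq_norm_sq] at hv
    nlinarith [norm_nonneg v]
  apply key
  fin_cases i <;> simp only [dir3, Fin.zero_eta, Fin.mk_one, Fin.reduceFinMk, Matrix.cons_val,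
    Matrix.cons_val_zero, Matrix.cons_val_one, inner_vec3]
  · norm_num
  · linear_combination hsc
  · linear_combination hsc + Real.sin ψ ^ 2 / 4 * h3
  · linear_combination hsc + Real.sin ψ ^ 2 / 4 * h3

lemma inner_dir3 (h0 : 0 < ψ) (h1 : ψ < Real.pi) (i j : Fin 4) (hij : i ≠ j) :
    ⟪dir3 ψ i, dir3 ψ j⟫ = Real.cos (rad ψ i + rad ψ j) := by
  have h3 : Real.sqrt 3 ^ 2 = 3 := Real.sq_sqrt (by norm_num)
  have hsc := Real.sin_sq_add_cos_sq ψ
  have hc2 : Real.cos (th ψ + th ψ) = 1 - 3 / 2 * Real.sin ψ ^ 2 := by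
    rw [← two_mul, Real.cos_two_mul, Real.cos_sq', sin_th h0 h1]
    linear_combination - Real.sin ψ ^ 2 / 2 * h3
  have hc1 : Real.cos (Real.pi - ψ - th ψ + th ψ) = -Real.cos ψ := by
    rw [sub_add_cancel, Real.cos_pi_sub]
  have hc1' : Real.cos (th ψ + (Real.pi - ψ - th ψ)) = -Real.cos ψ := by
    rw [add_comm, hc1]
  fin_cases i <;> fin_cases j <;> first | exact absurd rfl hij | skip
  all_goals
    simp only [dir3, rad, Fin.zero_eta, Fin.mk_one, Fin.reduceFinMk, Matrix.cons_val,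
      Matrix.cons_val_zero, Matrix.cons_val_one, inner_vec3, hc1, hc1', hc2]
  all_goals first
    | ring1
    | linear_combination hsc
    | linear_combination hsc - Real.sin ψ ^ 2 / 4 * h3

lemma affine_ne (hcos : ∀ i, Real.cos (rad ψ i) ≠ 0) (i j : Fin 4)
    (hij : i ≠ j) : ⟪nor3 ψ i, hvert r ψ j⟫ + off3 r ψ i = 0 := by
  have h3 : Real.sqrt 3 ^ 2 = 3 := Real.sq_sqrt (by norm_num)
  have e1 : Real.cos (Real.pi - ψ - th ψ) = -Real.cos (ψ + th ψ) := by
    rw [sub_sub, Real.cos_pi_sub]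
  have e2 : Real.cos (th ψ) = Real.cos (ψ + th ψ) * Real.cos ψ
      + Real.sin (ψ + th ψ) * Real.sin ψ := by
    rw [← Real.cos_sub]; congr 1; ring
  have hj := hcos j
  have key : Real.cos (rad ψ j) * (⟪nor3 ψ i, hvert r ψ j⟫ + off3 r ψ i)
      = Real.tanh r * ⟪nor3 ψ i, dir3 ψ j⟫ + Real.cos (rad ψ j) * off3 r ψ i := by
    rw [hvert, inner_smul_right]
    field_simp
  have key2 : Real.tanh r * ⟪nor3 ψ i, dir3 ψ j⟫ + Real.cos (rad ψ j) * off3 r ψ i = 0 := by
    fin_cases i <;> fin_cases j <;> first | exact absurd rfl hij | skip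
    all_goals
      simp only [dir3, rad, nor3, off3, Fin.zero_eta, Fin.mk_one, Fin.reduceFinMk,
        Matrix.cons_val, Matrix.cons_val_zero, Matrix.cons_val_one, inner_vec3, e1]
    all_goals first
      | ring1
      | linear_combination Real.tanh r * e2
      | linear_combination Real.tanh r * (e2 + (Real.sin (ψ + th ψ) * Real.sin ψ / 2) * h3)
      | linear_combination Real.tanh r * (e2 - (Real.sin (ψ + th ψ) * Real.sin ψ / 2) * h3)
  rw [key2] at key
  exact (mul_eq_zero.1 key).resolve_left hj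

lemma affine_self (hρ : 0 < Real.tanh r) (hcos : ∀ i, 0 < Real.cos (rad ψ i))
    (h0 : 0 < ψ) (h1 : ψ < Real.pi) (i : Fin 4) :
    ⟪nor3 ψ i, hvert r ψ i⟫ + off3 r ψ i ≠ 0 := by
  have h3 : Real.sqrt 3 ^ 2 = 3 := Real.sq_sqrt (by norm_num)
  have e1 : Real.cos (Real.pi - ψ - th ψ) = -Real.cos (ψ + th ψ) := by
    rw [sub_sub, Real.cos_pi_sub]
  have e2 : Real.cos (th ψ) = Real.cos (ψ + th ψ) * Real.cos ψ
      + Real.sin (ψ + th ψ) * Real.sin ψ := by
    rw [← Real.cos_sub]; congr 1; ring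
  have hp : 0 < Real.sin (ψ + th ψ) * Real.sin ψ :=
    mul_pos (Real.sin_pos_of_pos_of_lt_pi (by linarith [th_pos h0 h1]) (add_th_lt h0 h1))
      (Real.sin_pos_of_pos_of_lt_pi h0 h1)
  have hj := (hcos i).ne'
  have key : Real.cos (rad ψ i) * (⟪nor3 ψ i, hvert r ψ i⟫ + off3 r ψ i)
      = Real.tanh r * ⟪nor3 ψ i, dir3 ψ i⟫ + Real.cos (rad ψ i) * off3 r ψ i := by
    rw [hvert, inner_smul_right]
    field_simp
  have key2 : Real.tanh r * ⟪nor3 ψ i, dir3 ψ i⟫ + Real.cos (rad ψ i) * off3 r ψ i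
      = Real.tanh r * ((if i = 0 then 1 else 3) * (Real.sin (ψ + th ψ) * Real.sin ψ)) := by
    fin_cases i
    all_goals
      simp only [dir3, rad, nor3, off3, Fin.zero_eta, Fin.mk_one, Fin.reduceFinMk,
        Matrix.cons_val, Matrix.cons_val_zero, Matrix.cons_val_one, inner_vec3, e1]
    · simp only [if_true]
      linear_combination Real.tanh r * e2
    · rw [if_neg (by decide)]
      linear_combination Real.tanh r * e2
    · rw [if_neg (by decide)]
      linear_combination Real.tanh r * (e2 + (Real.sin (ψ + th ψ) * Real.sin ψ / 2) * h3)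
    · rw [if_neg (by decide)]
      linear_combination Real.tanh r * (e2 + (Real.sin (ψ + th ψ) * Real.sin ψ / 2) * h3)
  intro hz
  rw [hz, mul_zero, key2] at key
  have : 0 < Real.tanh r * ((if i = 0 then 1 else 3) * (Real.sin (ψ + th ψ) * Real.sin ψ)) := by
    split_ifs <;> positivity
  exact this.ne key

lemma affineIndep (hρ : 0 < Real.tanh r) (hcos : ∀ i, 0 < Real.cos (rad ψ i))
    (h0 : 0 < ψ) (h1 : ψ < Real.pi) : AffineIndependent ℝ (hvert r ψ) := by
  rw [affineIndependent_iff]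
  intro s w hw hwv i hi
  have h : ⟪nor3 ψ i, ∑ e ∈ s, w e • hvert r ψ e⟫ + (∑ e ∈ s, w e) * off3 r ψ i
      = w i * (⟪nor3 ψ i, hvert r ψ i⟫ + off3 r ψ i) := by
    rw [inner_sum, Finset.sum_mul, ← Finset.sum_add_distrib, Finset.sum_eq_single i]
    · rw [inner_smul_right]; ring
    · intro j _ hj
      rw [inner_smul_right, ← mul_add, affine_ne (fun i => (hcos i).ne') i j (Ne.symm hj),
        mul_zero]
    · intro h; exact absurd hi h
  rw [hw, hwv, inner_zero_right, zero_mul, add_zero] at h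
  exact (mul_eq_zero.1 h.symm).resolve_right (affine_self hρ hcos h0 h1 i)

lemma vec3_continuous {f g h : ℝ → ℝ} (hf : Continuous f) (hg : Continuous g)
    (hh : Continuous h) : Continuous fun t => vec3 (f t) (g t) (h t) := by
  unfold vec3
  refine (PiLp.continuous_toLp 2 _).comp ?_
  refine continuous_pi fun i => ?_
  fin_cases i <;> simpa

lemma th_cont : Continuous th := by
  unfold th
  fun_prop

lemma rad_cont (i : Fin 4) : Continuous fun ψ => rad ψ i := by
  have := th_cont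
  fin_cases i <;> simp only [rad, Fin.zero_eta, Fin.mk_one, Fin.reduceFinMk, Matrix.cons_val,
      Matrix.cons_val_zero, Matrix.cons_val_one] <;> fun_prop

lemma rad_at_pi (i : Fin 4) : rad Real.pi i = 0 := by
  have : th Real.pi = 0 := by simp [th]
  fin_cases i <;> simp [rad, this]

lemma dir3_cont (i : Fin 4) : Continuous fun ψ => dir3 ψ i := by
  fin_cases i <;> simp only [dir3, Fin.zero_eta, Fin.mk_one, Fin.reduceFinMk, Matrix.cons_val,
      Matrix.cons_val_zero, Matrix.cons_val_one] <;>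
    exact vec3_continuous (by fun_prop) (by fun_prop) (by fun_prop)

lemma dir3_at_pi (i : Fin 4) : dir3 Real.pi i = vec3 0 0 (-1) := by
  fin_cases i <;> simp [dir3]

lemma smul_vec3 (t x y z : ℝ) : t • vec3 x y z = vec3 (t * x) (t * y) (t * z) := by
  unfold vec3
  ext i
  fin_cases i <;> simp

lemma hvert_tendsto (i : Fin 4) :
    Tendsto (fun ψ => hvert r ψ i) (𝓝 Real.pi) (𝓝 (vec3 0 0 (-Real.tanh r))) := by
  have h1 : Tendsto (fun ψ => Real.tanh r / Real.cos (rad ψ i)) (𝓝 Real.pi)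
      (𝓝 (Real.tanh r / 1)) := by
    refine Tendsto.div tendsto_const_nhds ?_ one_ne_zero
    have : Tendsto (fun ψ => Real.cos (rad ψ i)) (𝓝 Real.pi) (𝓝 (Real.cos (rad Real.pi i))) :=
      (Real.continuous_cos.comp (rad_cont i)).tendsto Real.pi
    simpa [rad_at_pi] using this
  have h2 := (dir3_cont i).tendsto Real.pi
  rw [dir3_at_pi] at h2
  have h3 := h1.smul h2
  rw [smul_vec3] at h3
  simpa [hvert] using h3

lemma norm_vec3_axis (z : ℝ) : ‖vec3 0 0 z‖ = |z| := by
  have : ⟪vec3 0 0 z, vec3 0 0 z⟫ = z ^ 2 := by rw [inner_vec3]; ring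
  rw [real_inner_self_eq_norm_sq] at this
  rw [← Real.sqrt_sq (norm_nonneg _), this, Real.sqrt_sq_eq_abs]

theorem isGLB_hypVolumes (r : ℝ) (hr : 0 < r) : IsGLB (hypVolumes r) 0 := by
  have hρ : 0 < Real.tanh r := by
    rw [Real.tanh_eq_sinh_div_cosh]; exact div_pos (Real.sinh_pos_iff.2 hr) (Real.cosh_pos r)
  have hρ1 : Real.tanh r < 1 := Real.tanh_lt_one r
  set ρ := Real.tanh r with hρd
  refine ⟨fun _ _ => bot_le, ?_⟩
  intro B hB
  by_contra hcon
  rw [not_le] at hcon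
  -- the bound for the density
  set p := vec3 0 0 (-ρ) with hp
  have hpn : ‖p‖ = ρ := by rw [hp, norm_vec3_axis, abs_neg, abs_of_pos hρ]
  set R := (1 + ρ) / 2 with hR
  set M := ENNReal.ofReal (((1 - R ^ 2) ^ 2)⁻¹) with hM
  have hR1 : R < 1 := by rw [hR]; linarith
  have hR0 : 0 < R := by rw [hR]; linarith
  -- small balls have small measure
  have hsmall : ∃ ε : ℝ, 0 < ε ∧ ε ≤ (1 - ρ) / 2 ∧ M * volume (closedBall p ε) < B := by
    have h1 : Tendsto (fun ε : ℝ => M * (ENNReal.ofReal ε ^ 3 *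
        ENNReal.ofReal (Real.sqrt Real.pi ^ 3 / Real.Gamma ((3 : ℕ) / 2 + 1)))) (𝓝[>] 0) (𝓝 0) := by
      have h2 : Tendsto (fun ε : ℝ => ENNReal.ofReal ε ^ 3) (𝓝[>] 0) (𝓝 0) := by
        have h3 : Continuous fun ε : ℝ => ENNReal.ofReal ε ^ 3 :=
          (ENNReal.continuous_pow 3).comp ENNReal.continuous_ofReal
        have h4 := (h3.tendsto 0).mono_left (nhdsWithin_le_nhds (s := Set.Ioi 0))
        simpa using h4
      have h5 := ENNReal.Tendsto.mul_const h2 (b := ENNReal.ofReal (Real.sqrt Real.pi ^ 3 /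
        Real.Gamma ((3 : ℕ) / 2 + 1))) (Or.inr ENNReal.ofReal_ne_top)
      have h6 := ENNReal.Tendsto.const_mul h5 (a := M) (Or.inr ENNReal.ofReal_ne_top)
      simpa using h6
    have h2 : ∀ᶠ ε : ℝ in 𝓝[>] 0, ε ≤ (1 - ρ) / 2 := by
      apply eventually_nhdsWithin_of_eventually_nhds
      exact (gt_mem_nhds (show (0 : ℝ) < (1 - ρ) / 2 by linarith)).mono fun _ h => le_of_lt h
    obtain ⟨ε, hε⟩ := ((h1.eventually (gt_mem_nhds hcon)).and (h2.and self_mem_nhdsWithin)).exists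
    obtain ⟨ha, hb, hc⟩ := hε
    refine ⟨ε, hc, hb, ?_⟩
    rw [EuclideanSpace.volume_closedBall]
    simpa using ha
  obtain ⟨ε, hε0, hε1, hεB⟩ := hsmall
  -- a tetrahedron close to `p`
  have hev : ∀ᶠ ψ in 𝓝[<] Real.pi, (∀ i, hvert r ψ i ∈ closedBall p ε) ∧
      (∀ i, rad ψ i < Real.pi / 2) ∧ 0 < ψ ∧ ψ < Real.pi := by
    have e1 : ∀ᶠ ψ in 𝓝 Real.pi, ∀ i, hvert r ψ i ∈ closedBall p ε :=
      eventually_all.2 fun i => (hvert_tendsto i).eventually (closedBall_mem_nhds p hε0)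
    have e2 : ∀ᶠ ψ in 𝓝 Real.pi, ∀ i, rad ψ i < Real.pi / 2 := by
      refine eventually_all.2 fun i => ?_
      have := (rad_cont i).tendsto Real.pi
      rw [rad_at_pi] at this
      exact this.eventually (gt_mem_nhds (by positivity))
    have e3 : ∀ᶠ ψ in 𝓝 Real.pi, 0 < ψ := lt_mem_nhds Real.pi_pos
    filter_upwards [eventually_nhdsWithin_of_eventually_nhds e1,
      eventually_nhdsWithin_of_eventually_nhds e2, eventually_nhdsWithin_of_eventually_nhds e3,
      self_mem_nhdsWithin] with ψ h1 h2 h3 h4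
    exact ⟨h1, h2, h3, h4⟩
  obtain ⟨ψ, hball, hrad, h0, h1⟩ := hev.exists
  have hcos : ∀ i, 0 < Real.cos (rad ψ i) := fun i =>
    Real.cos_pos_of_mem_Ioo ⟨by linarith [rad_pos h0 h1 i, Real.pi_pos], hrad i⟩
  have hballR : ∀ x ∈ closedBall p ε, ‖x‖ ≤ R := by
    intro x hx
    have h2 : ‖x - p‖ ≤ ε := by simpa [dist_eq_norm] using hx
    calc ‖x‖ = ‖(x - p) + p‖ := by rw [sub_add_cancel]
      _ ≤ ‖x - p‖ + ‖p‖ := norm_add_le _ _
      _ ≤ (1 - ρ) / 2 + ρ := by rw [hpn]; linarith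
      _ = R := by rw [hR]; ring
  have hmid : HypMidscribed r (hvert r ψ) := by
    refine ⟨fun i => (hballR _ (hball i)).trans_lt hR1, affineIndep hρ hcos h0 h1, ?_⟩
    intro i j hij
    exact hyp_tangent_of_caps (norm_dir3 i) (norm_dir3 j) (rad_pos h0 h1 i) (rad_pos h0 h1 j)
      (hrad i) (hrad j) (inner_dir3 h0 h1 i j hij) hr
  have hle := hB ⟨_, hmid, rfl⟩
  have hvol : hypVol (hvert r ψ) ≤ M * volume (closedBall p ε) := by
    unfold hypVol
    have hsub : convexHull ℝ (Set.range (hvert r ψ)) ⊆ closedBall p ε := by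
      apply convexHull_min _ (convex_closedBall p ε)
      rintro _ ⟨i, rfl⟩
      exact hball i
    calc ∫⁻ x in convexHull ℝ (Set.range (hvert r ψ)), ENNReal.ofReal (((1 - ‖x‖ ^ 2) ^ 2)⁻¹)
        ≤ ∫⁻ x in closedBall p ε, ENNReal.ofReal (((1 - ‖x‖ ^ 2) ^ 2)⁻¹) :=
          lintegral_mono_set hsub
      _ ≤ ∫⁻ _ in closedBall p ε, M := by
          refine setLIntegral_mono measurable_const ?_
          intro x hx
          have hxR := hballR x hx
          apply ENNReal.ofReal_le_ofReal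
          have h2 : ‖x‖ ^ 2 ≤ R ^ 2 := by
            apply pow_le_pow_left₀ (norm_nonneg _) hxR
          have h3 : R ^ 2 < 1 := by nlinarith
          apply inv_anti₀
          · have : 0 < 1 - R ^ 2 := by linarith
            positivity
          · apply pow_le_pow_left₀ (by linarith)
            linarith
      _ = M * volume (closedBall p ε) := by rw [setLIntegral_const]
  exact absurd (hle.trans hvol) (not_le.2 hεB)

end Pool.Agent.Hhelper43.Mid
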