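import Pool.Agent.Hhelper43.Mid.Sphere

set_option autoImplicit false

/-! # Volumes of the midscribed tetrahedra of the unit 3-sphere -/

open MeasureTheory InnerProductGeometry Filter Topology Metric
open scoped RealInnerProductSpace ENNReal Pointwise

namespace Pool.Agent.Hhelper43.Mid

/-- The Riemannian measure of the unit 3-sphere. -/
noncomputable abbrev μS : Measure (sphere (0 : E4) 1) := (volume : Measure E4).toSphere

lemma volume_ball_E4 : (volume : Measure E4) (ball 0 1) = ENNReal.ofReal (Real.pi ^ 2 / 2) := by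
  rw [EuclideanSpace.volume_ball]
  have h : Real.Gamma ((Fintype.card (Fin 4) : ℝ) / 2 + 1) = 2 := by
    have : ((Fintype.card (Fin 4) : ℝ) / 2 + 1) = ((2 : ℕ) : ℝ) + 1 := by
      rw [Fintype.card_fin]; norm_num
    rw [this, Real.Gamma_nat_eq_factorial]; norm_num
  rw [h]
  have h2 : Real.sqrt Real.pi ^ Fintype.card (Fin 4) = Real.pi ^ 2 := by
    rw [Fintype.card_fin, show (4 : ℕ) = 2 * 2 from rfl, pow_mul, Real.sq_sqrt Real.pi_pos.le]
  rw [h2]
  simp

lemma Ioo_smul_image (n : E4) :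
    Set.Ioo (0 : ℝ) 1 • ((fun x : sphere (0 : E4) 1 => (x : E4)) '' {x | 0 < ⟪n, (x : E4)⟫})
      = {y | y ∈ ball (0 : E4) 1 ∧ 0 < ⟪n, y⟫} := by
  ext y
  constructor
  · rintro ⟨t, ht, _, ⟨x, hx, rfl⟩, rfl⟩
    have hx1 : ‖(x : E4)‖ = 1 := by simp
    refine ⟨?_, ?_⟩
    · show t • (x : E4) ∈ ball (0 : E4) 1
      rw [mem_ball_zero_iff, norm_smul, hx1, mul_one, Real.norm_eq_abs, abs_of_pos ht.1]
      exact ht.2
    · show 0 < ⟪n, t • (x : E4)⟫
      rw [inner_smul_right]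
      exact mul_pos ht.1 hx
  · rintro ⟨hy, hn⟩
    have hy0 : y ≠ 0 := by
      rintro rfl
      simp at hn
    have hyn : 0 < ‖y‖ := norm_pos_iff.2 hy0
    refine ⟨‖y‖, ⟨hyn, mem_ball_zero_iff.1 hy⟩, ‖y‖⁻¹ • y, ⟨⟨‖y‖⁻¹ • y, ?_⟩, ?_, rfl⟩, ?_⟩
    · rw [mem_sphere_zero_iff_norm, norm_smul, norm_inv, norm_norm, inv_mul_cancel₀ hyn.ne']
    · show 0 < ⟪n, ‖y‖⁻¹ • y⟫
      rw [inner_smul_right]
      exact mul_pos (inv_pos.2 hyn) hn
    · show ‖y‖ • ‖y‖⁻¹ • y = y
      rw [smul_smul, mul_inv_cancel₀ hyn.ne', one_smul]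

lemma measurableSet_half (n : E4) : MeasurableSet {x : sphere (0 : E4) 1 | 0 < ⟪n, (x : E4)⟫} :=
  (isOpen_lt continuous_const (by fun_prop)).measurableSet

lemma half_ball (n : E4) (hn : n ≠ 0) :
    (volume : Measure E4) {y | y ∈ ball (0 : E4) 1 ∧ 0 < ⟪n, y⟫}
      = ENNReal.ofReal (Real.pi ^ 2 / 4) := by
  set A := {y : E4 | y ∈ ball (0 : E4) 1 ∧ 0 < ⟪n, y⟫} with hA
  set B := {y : E4 | y ∈ ball (0 : E4) 1 ∧ ⟪n, y⟫ < 0} with hB
  have hAm : MeasurableSet A := by
    have h1 : IsOpen {y : E4 | 0 < ⟪n, y⟫} := isOpen_lt continuous_const (by fun_prop)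
    exact (isOpen_ball.inter h1).measurableSet
  have hBm : MeasurableSet B := by
    have h1 : IsOpen {y : E4 | ⟪n, y⟫ < 0} := isOpen_lt (by fun_prop) continuous_const
    exact (isOpen_ball.inter h1).measurableSet
  have hAB : volume B = volume A := by
    have h1 : B = Neg.neg ⁻¹' A := by
      ext y
      simp [hA, hB, inner_neg_right]
    rw [h1]
    exact Measure.measure_preimage_neg volume A
  have hzero : (volume : Measure E4) {y | ⟪n, y⟫ = 0} = 0 := by
    have h1 : {y : E4 | ⟪n, y⟫ = 0} = ((Submodule.span ℝ {n})ᗮ : Submodule ℝ E4) := by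
      ext y
      simp [Submodule.mem_orthogonal_singleton_iff_inner_right]
    rw [h1]
    apply Measure.addHaar_submodule
    intro h
    rw [Submodule.orthogonal_eq_top_iff] at h
    exact hn (Submodule.span_singleton_eq_bot.1 h)
  have hdisj : Disjoint A B := by
    rw [Set.disjoint_left]
    rintro y ⟨_, h1⟩ ⟨_, h2⟩
    linarith
  have hball : volume (ball (0 : E4) 1) = volume (A ∪ B) := by
    apply le_antisymm
    · calc volume (ball (0 : E4) 1) ≤ volume ((A ∪ B) ∪ {y | ⟪n, y⟫ = 0}) := by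
            apply measure_mono
            intro y hy
            rcases lt_trichotomy ⟪n, y⟫ 0 with h | h | h
            · exact Or.inl (Or.inr ⟨hy, h⟩)
            · exact Or.inr h
            · exact Or.inl (Or.inl ⟨hy, h⟩)
        _ ≤ volume (A ∪ B) + volume {y : E4 | ⟪n, y⟫ = 0} := measure_union_le _ _
        _ = volume (A ∪ B) := by rw [hzero, add_zero]
    · apply measure_mono
      rintro y (h | h)
      · exact h.1
      · exact h.1
  rw [measure_union hdisj hBm, hAB, volume_ball_E4] at hball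
  have hfin : volume A ≠ ∞ :=
    ((measure_mono (fun y hy => hy.1)).trans_lt (measure_ball_lt_top (x := (0 : E4)) (r := 1))).ne
  have h2 : (2 : ℝ≥0∞) * volume A = 2 * ENNReal.ofReal (Real.pi ^ 2 / 4) := by
    rw [two_mul, ← hball]
    rw [show (2 : ℝ≥0∞) = ENNReal.ofReal 2 by simp, ← ENNReal.ofReal_mul (by norm_num)]
    congr 1; ring
  exact (ENNReal.mul_right_inj (by norm_num) (by norm_num)).1 h2

lemma half_sphere (n : E4) (hn : n ≠ 0) :
    μS {x | 0 < ⟪n, (x : E4)⟫} = ENNReal.ofReal (Real.pi ^ 2) := by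
  rw [μS, Measure.toSphere_apply' _ (measurableSet_half n), Ioo_smul_image, half_ball n hn,
    finrank_euclideanSpace_fin]
  rw [show ((4 : ℕ) : ℝ≥0∞) = ENNReal.ofReal 4 by simp, ← ENNReal.ofReal_mul (by norm_num)]
  congr 1; ring

lemma total_sphere : μS Set.univ = ENNReal.ofReal (2 * Real.pi ^ 2) := by
  rw [μS, Measure.toSphere_apply_univ, volume_ball_E4, finrank_euclideanSpace_fin]
  rw [show ((4 : ℕ) : ℝ≥0∞) = ENNReal.ofReal 4 by simp, ← ENNReal.ofReal_mul (by norm_num)]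
  congr 1; ring

lemma great_sphere (n : E4) (hn : n ≠ 0) : μS {x | ⟪n, (x : E4)⟫ = 0} = 0 := by
  have hm : MeasurableSet {x : sphere (0 : E4) 1 | ⟪n, (x : E4)⟫ = 0} :=
    (isClosed_eq (by fun_prop) continuous_const).measurableSet
  have h1 := half_sphere n hn
  have h2 := half_sphere (-n) (neg_ne_zero.2 hn)
  have h3 := total_sphere
  have hd1 : Disjoint {x : sphere (0 : E4) 1 | 0 < ⟪n, (x : E4)⟫}
      {x : sphere (0 : E4) 1 | 0 < ⟪-n, (x : E4)⟫} := by
    rw [Set.disjoint_left]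
    intro x hx hx'
    simp only [Set.mem_ofPred_eq, inner_neg_left] at hx hx'
    linarith
  have hd2 : Disjoint ({x : sphere (0 : E4) 1 | 0 < ⟪n, (x : E4)⟫} ∪
      {x : sphere (0 : E4) 1 | 0 < ⟪-n, (x : E4)⟫}) {x : sphere (0 : E4) 1 | ⟪n, (x : E4)⟫ = 0} := by
    rw [Set.disjoint_left]
    rintro x (hx | hx) hx' <;> simp only [Set.mem_ofPred_eq, inner_neg_left] at hx hx' <;> linarith
  have hle : μS ({x | 0 < ⟪n, (x : E4)⟫} ∪ {x | 0 < ⟪-n, (x : E4)⟫}) + μS {x | ⟪n, (x : E4)⟫ = 0}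
      ≤ μS Set.univ := by
    rw [← measure_union hd2 hm]
    exact measure_mono (Set.subset_univ _)
  rw [measure_union hd1 (measurableSet_half _), h1, h2, h3,
    ← ENNReal.ofReal_add (by positivity) (by positivity),
    show Real.pi ^ 2 + Real.pi ^ 2 = 2 * Real.pi ^ 2 by ring] at hle
  have h4 : ENNReal.ofReal (2 * Real.pi ^ 2) + μS {x | ⟪n, (x : E4)⟫ = 0}
      ≤ ENNReal.ofReal (2 * Real.pi ^ 2) + 0 := by simpa using hle
  exact le_antisymm ((ENNReal.add_le_add_iff_left ENNReal.ofReal_ne_top).1 h4) bot_le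

/-- Every midscribed tetrahedron has volume at most `π²`. -/
lemma vol_le {c : E4} {r : ℝ} {v : Fin 4 → E4} (h : SphMidscribed c r v) :
    sphVol v ≤ ENNReal.ofReal (Real.pi ^ 2) := by
  obtain ⟨u, hu⟩ := h.hemi
  have hu0 : u ≠ 0 := by
    rintro rfl
    have := hu 0
    simp at this
  rw [← half_sphere u hu0]
  apply measure_mono
  rintro x ⟨a, ha, hx⟩
  show 0 < ⟪u, (x : E4)⟫
  have hx0 : (x : E4) ≠ 0 := by
    intro h0
    have := x.2
    rw [h0] at this
    simp at this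
  rw [hx, inner_sum]
  have hex : ∃ i, a i ≠ 0 := by
    by_contra hcon
    push Not at hcon
    apply hx0
    rw [hx]
    simp [hcon]
  obtain ⟨i, hi⟩ := hex
  apply Finset.sum_pos'
  · intro j _
    rw [inner_smul_right]
    exact mul_nonneg (ha j) (hu j).le
  · refine ⟨i, Finset.mem_univ _, ?_⟩
    rw [inner_smul_right]
    exact mul_pos (lt_of_le_of_ne (ha i) (Ne.symm hi)) (hu i)

/-- Lower semicontinuity. -/
lemma exists_lt {Ω : Type*} [MeasurableSpace Ω] (μ : Measure Ω) (T : ℕ → Set Ω) (H : Set Ω)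
    (h : ∀ x ∈ H, ∀ᶠ k in atTop, x ∈ T k) {b : ℝ≥0∞} (hb : b < μ H) : ∃ k, b < μ (T k) := by
  set G : ℕ → Set Ω := fun m => ⋂ k ≥ m, T k with hG
  have hmono : Monotone G := by
    intro m m' hm x hx
    simp only [hG, Set.mem_iInter] at hx ⊢
    exact fun k hk => hx k (hm.trans hk)
  have hsub : H ⊆ ⋃ m, G m := by
    intro x hx
    obtain ⟨m, hm⟩ := eventually_atTop.1 (h x hx)
    exact Set.mem_iUnion.2 ⟨m, Set.mem_iInter₂.2 fun k hk => hm k hk⟩
  have h1 : b < ⨆ m, μ (G m) := by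
    rw [← hmono.measure_iUnion]
    exact hb.trans_le (measure_mono hsub)
  obtain ⟨m, hm⟩ := lt_iSup_iff.1 h1
  exact ⟨m, hm.trans_le (measure_mono (Set.iInter₂_subset m le_rfl))⟩

lemma exists_lt_of_null {Ω : Type*} [MeasurableSpace Ω] (μ : Measure Ω) [IsFiniteMeasure μ]
    (T : ℕ → Set Ω) (hT : ∀ k, MeasurableSet (T k)) (Z : Set Ω) (hZ : μ Z = 0)
    (h : ∀ x ∉ Z, ∀ᶠ k in atTop, x ∉ T k) {b : ℝ≥0∞} (hb : 0 < b) : ∃ k, μ (T k) < b := by
  set G : ℕ → Set Ω := fun m => ⋃ k ≥ m, T k with hG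
  have hmono : Antitone G := by
    intro m m' hm x hx
    simp only [hG, Set.mem_iUnion] at hx ⊢
    obtain ⟨k, hk, hx⟩ := hx
    exact ⟨k, hm.trans hk, hx⟩
  have hsub : ⋂ m, G m ⊆ Z := by
    intro x hx
    by_contra hxZ
    obtain ⟨m, hm⟩ := eventually_atTop.1 (h x hxZ)
    have h1 := Set.mem_iInter.1 hx m
    obtain ⟨k, hk, hxk⟩ := Set.mem_iUnion₂.1 h1
    exact hm k hk hxk
  have h1 : ⨅ m, μ (G m) < b := by
    rw [← hmono.measure_iInter (fun m => (MeasurableSet.iUnion fun k =>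
      MeasurableSet.iUnion fun _ => hT k).nullMeasurableSet) ⟨0, measure_ne_top _ _⟩]
    exact ((measure_mono hsub).trans hZ.le).trans_lt hb
  obtain ⟨m, hm⟩ := iInf_lt_iff.1 h1
  exact ⟨m, (measure_mono (Set.subset_iUnion₂ (s := fun k (_ : k ≥ m) => T k) m le_rfl)).trans_lt
    hm⟩

lemma exists_basis (c : E4) (hc : ‖c‖ = 1) : ∃ b : OrthonormalBasis (Fin 4) ℝ E4, b 3 = c := by
  have hv : Orthonormal ℝ (({3} : Set (Fin 4)).domRestrict fun _ => c) := by
    refine ⟨fun _ => hc, ?_⟩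
    intro i j hij
    exact absurd (Subtype.ext ((Set.mem_singleton_iff.1 i.2).trans
      (Set.mem_singleton_iff.1 j.2).symm)) hij
  obtain ⟨b, hb⟩ := hv.exists_orthonormalBasis_extension_of_card_eq (by simp)
  exact ⟨b, hb 3 rfl⟩

lemma cos_ne {r : ℝ} (hr0 : 0 < r) (hr1 : r < Real.pi) (hr2 : r ≠ Real.pi / 2) :
    Real.cos r ≠ 0 := by
  intro h
  rcases lt_or_gt_of_ne hr2 with h2 | h2
  · exact (Real.cos_pos_of_mem_Ioo ⟨by linarith, h2⟩).ne' h
  · exact (Real.cos_neg_of_pi_div_two_lt_of_lt h2 (by linarith)).ne h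

/-- The set of volumes has supremum `π²`. -/
theorem isLUB_sphVolumes (c : E4) (hc : ‖c‖ = 1) (r : ℝ) (hr0 : 0 < r) (hr1 : r < Real.pi)
    (hr2 : r ≠ Real.pi / 2) : IsLUB (sphVolumes c r) (ENNReal.ofReal (Real.pi ^ 2)) := by
  obtain ⟨b, rfl⟩ := exists_basis c hc
  have hs : Real.sin r ≠ 0 := (Real.sin_pos_of_pos_of_lt_pi hr0 hr1).ne'
  have hcr := cos_ne hr0 hr1 hr2
  refine ⟨?_, ?_⟩
  · rintro _ ⟨v, hv, rfl⟩
    exact vol_le hv
  · intro B hB
    by_contra hcon
    rw [not_le] at hcon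
    have hn : vec b 0 0 (-1) (Real.tan r) ≠ 0 := by
      intro h
      have : ⟪vec b 0 0 (-1) (Real.tan r), vec b 0 0 (-1) 0⟫ = 1 := by rw [inner_vec]; ring
      rw [h, inner_zero_left] at this
      exact zero_ne_one this
    rw [← half_sphere _ hn] at hcon
    have hpos : ∀ k : ℕ, 0 < 1 / ((k : ℝ) + 1) := fun k => by positivity
    have hlt : ∀ k : ℕ, 1 / ((k : ℝ) + 1) < Real.pi := fun k => by
      have h1 : 1 / ((k : ℝ) + 1) ≤ 1 := by
        rw [div_le_one (by positivity)]; linarith [(Nat.cast_nonneg k : (0 : ℝ) ≤ k)]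
      linarith [Real.pi_gt_three]
    obtain ⟨k, hk⟩ := exists_lt μS (fun k : ℕ => sphHull (unitVert b r (1 / ((k : ℝ) + 1))))
      {x | 0 < ⟪vec b 0 0 (-1) (Real.tan r), (x : E4)⟫} (by
        intro x hx
        have hev : ∀ i : Fin 4, ∀ᶠ k : ℕ in atTop,
            0 < ⟪nor b r (1 / ((k : ℝ) + 1)) i, (x : E4)⟫ := by
          intro i
          have hc1 := (inner_nor_continuous b r (x : E4) i).tendsto 0
          rw [nor_zero] at hc1
          have hc2 := hc1.comp (tendsto_one_div_add_atTop_nhds_zero_nat (𝕜 := ℝ))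
          exact hc2.eventually (lt_mem_nhds hx)
        filter_upwards [eventually_all.2 hev] with k hk
        exact (mem_hull_iff (dual_ne b hs hcr) (dual_pos b hs hcr (hpos k) (hlt k)) x).2
          fun i => (hk i).le) hcon
    have := hB ⟨_, midscribed b hr0 hr1 hr2 (hpos k) (hlt k), rfl⟩
    exact absurd this (not_le.2 hk)

/-- The set of volumes has infimum `0`. -/
theorem isGLB_sphVolumes (c : E4) (hc : ‖c‖ = 1) (r : ℝ) (hr0 : 0 < r) (hr1 : r < Real.pi)
    (hr2 : r ≠ Real.pi / 2) : IsGLB (sphVolumes c r) 0 := by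
  obtain ⟨b, rfl⟩ := exists_basis c hc
  have hs : Real.sin r ≠ 0 := (Real.sin_pos_of_pos_of_lt_pi hr0 hr1).ne'
  have hcr := cos_ne hr0 hr1 hr2
  refine ⟨fun _ _ => bot_le, ?_⟩
  intro B hB
  by_contra hcon
  rw [not_le] at hcon
  have hn : vec b 0 0 1 (Real.tan r) ≠ 0 := by
    intro h
    have : ⟪vec b 0 0 1 (Real.tan r), vec b 0 0 1 0⟫ = 1 := by rw [inner_vec]; ring
    rw [h, inner_zero_left] at this
    exact zero_ne_one this
  have hneg : ∀ x : E4, ⟪vec b 0 0 (-1) (-Real.tan r), x⟫ = -⟪vec b 0 0 1 (Real.tan r), x⟫ := by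
    intro x
    have : vec b 0 0 (-1) (-Real.tan r) = -vec b 0 0 1 (Real.tan r) := by
      unfold vec
      rw [← map_neg]
      congr 1
      ext i
      fin_cases i <;> simp
    rw [this, inner_neg_left]
  have hpos : ∀ k : ℕ, 0 < Real.pi - 1 / ((k : ℝ) + 1) := fun k => by
    have h1 : 1 / ((k : ℝ) + 1) ≤ 1 := by
      rw [div_le_one (by positivity)]; linarith [(Nat.cast_nonneg k : (0 : ℝ) ≤ k)]
    linarith [Real.pi_gt_three]
  have hlt : ∀ k : ℕ, Real.pi - 1 / ((k : ℝ) + 1) < Real.pi := fun k => by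
    have : 0 < 1 / ((k : ℝ) + 1) := by positivity
    linarith
  have hlim : Tendsto (fun k : ℕ => Real.pi - 1 / ((k : ℝ) + 1)) atTop (𝓝 Real.pi) := by
    have := (tendsto_const_nhds (x := Real.pi) (f := atTop)).sub
      (tendsto_one_div_add_atTop_nhds_zero_nat (𝕜 := ℝ))
    rwa [sub_zero] at this
  have hmem : ∀ (k : ℕ) (x : sphere (0 : E4) 1),
      x ∈ sphHull (unitVert b r (Real.pi - 1 / ((k : ℝ) + 1))) ↔
        ∀ i, 0 ≤ ⟪nor b r (Real.pi - 1 / ((k : ℝ) + 1)) i, (x : E4)⟫ := fun k x =>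
    mem_hull_iff (dual_ne b hs hcr) (dual_pos b hs hcr (hpos k) (hlt k)) x
  obtain ⟨k, hk⟩ := exists_lt_of_null μS
    (fun k : ℕ => sphHull (unitVert b r (Real.pi - 1 / ((k : ℝ) + 1)))) (by
      intro k
      have : sphHull (unitVert b r (Real.pi - 1 / ((k : ℝ) + 1))) =
          ⋂ i, {x : sphere (0 : E4) 1 | 0 ≤ ⟪nor b r (Real.pi - 1 / ((k : ℝ) + 1)) i, (x : E4)⟫} := by
        ext x
        rw [hmem, Set.mem_iInter]
        rfl
      show MeasurableSet (sphHull (unitVert b r (Real.pi - 1 / ((k : ℝ) + 1))))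
      rw [this]
      exact MeasurableSet.iInter fun i =>
        (isClosed_le continuous_const (by fun_prop)).measurableSet)
    {x | ⟪vec b 0 0 1 (Real.tan r), (x : E4)⟫ = 0} (great_sphere _ hn) (by
      intro x hx
      have hx' : ⟪vec b 0 0 1 (Real.tan r), (x : E4)⟫ ≠ 0 := hx
      have h0 := (inner_nor_continuous b r (x : E4) 0).tendsto Real.pi
      rw [nor_pi_zero, hneg] at h0
      have h1 := (inner_nor_continuous b r (x : E4) 1).tendsto Real.pi
      rw [nor_pi_one] at h1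
      rcases lt_or_gt_of_ne hx' with h | h
      · filter_upwards [(h1.comp hlim).eventually (gt_mem_nhds h)] with k hk hmemk
        exact absurd ((hmem k x).1 hmemk 1) (not_le.2 hk)
      · filter_upwards [(h0.comp hlim).eventually (gt_mem_nhds (neg_lt_zero.2 h))] with k hk hmemk
        exact absurd ((hmem k x).1 hmemk 0) (not_le.2 hk)) hcon
  have := hB ⟨_, midscribed b hr0 hr1 hr2 (hpos k) (hlt k), rfl⟩
  exact absurd this (not_le.2 hk)

/-- No tetrahedron is midscribed to a hemisphere. -/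
theorem not_midscribed_hemisphere (c : E4) (hc : ‖c‖ = 1) (v : Fin 4 → E4) :
    ¬ SphMidscribed c (Real.pi / 2) v := by
  intro h
  have horth : ∀ i, ⟪v i, c⟫ = 0 := by
    intro i
    obtain ⟨j, hj⟩ : ∃ j : Fin 4, i ≠ j := by
      by_cases h0 : i = 0
      · exact ⟨1, by rw [h0]; decide⟩
      · exact ⟨0, h0⟩
    obtain ⟨P, hP, ⟨x, y, _, _, hPxy⟩, hang, hw⟩ := h.edges i j hj
    have hPc : ⟪P, c⟫ = 0 := InnerProductGeometry.inner_eq_zero_iff_angle_eq_pi_div_two P c |>.2 hang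
    have hPP : ⟪P, P⟫ = 1 := by rw [real_inner_self_eq_norm_sq, hP]; norm_num
    have hmem : v i - ⟪v i, P⟫ • P ∈ Submodule.span ℝ ({v i, v j} : Set E4) := by
      have hvi : v i ∈ Submodule.span ℝ ({v i, v j} : Set E4) :=
        Submodule.subset_span (by simp)
      have hPm : P ∈ Submodule.span ℝ ({v i, v j} : Set E4) :=
        Submodule.mem_span_pair.2 ⟨x, y, hPxy.symm⟩
      exact Submodule.sub_mem _ hvi (Submodule.smul_mem _ _ hPm)
    have h2 := hw _ hmem (by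
      rw [inner_sub_left, inner_smul_left, hPP]
      simp)
    rw [inner_sub_left, inner_smul_left, hPc, mul_zero, sub_zero] at h2
    exact h2
  have hspan : Submodule.span ℝ (Set.range v) = ⊤ :=
    h.indep.span_eq_top_of_card_eq_finrank' (by simp)
  have hcm : c ∈ Submodule.span ℝ (Set.range v) := by rw [hspan]; trivial
  obtain ⟨a, ha⟩ := (Submodule.mem_span_range_iff_exists_fun ℝ).1 hcm
  have : ⟪c, c⟫ = 0 := by
    conv_lhs => rw [← ha]
    rw [sum_inner]
    rw [ha]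
    apply Finset.sum_eq_zero
    intro i _
    rw [inner_smul_left, horth i, mul_zero]
  rw [real_inner_self_eq_norm_sq, hc] at this
  norm_num at this

end Pool.Agent.Hhelper43.Mid
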