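import Pool.Agent.Hhelper43.Mid.Defs

set_option autoImplicit false

/-! # Midscribed tetrahedra in the unit 3-sphere: an explicit one-parameter family -/

open MeasureTheory InnerProductGeometry Filter Topology
open scoped RealInnerProductSpace ENNReal

namespace Pool.Agent.Hhelper43.Mid

/-! ## Simplicial cones -/

section Dual

variable {N v : Fin 4 → E4}

lemma indep_of_dual (h0 : ∀ i j, i ≠ j → ⟪N i, v j⟫ = 0) (h1 : ∀ i, 0 < ⟪N i, v i⟫) :
    LinearIndependent ℝ v := by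
  rw [Fintype.linearIndependent_iff]
  intro g hg i
  have h : ⟪N i, ∑ j, g j • v j⟫ = g i * ⟪N i, v i⟫ := by
    rw [inner_sum, Finset.sum_eq_single i]
    · rw [inner_smul_right]
    · intro j _ hj
      rw [inner_smul_right, h0 i j (Ne.symm hj), mul_zero]
    · simp
  rw [hg, inner_zero_right] at h
  rcases mul_eq_zero.1 h.symm with h | h
  · exact h
  · exact absurd h (h1 i).ne'

lemma mem_hull_iff (h0 : ∀ i j, i ≠ j → ⟪N i, v j⟫ = 0) (h1 : ∀ i, 0 < ⟪N i, v i⟫)
    (x : Metric.sphere (0 : E4) 1) : x ∈ sphHull v ↔ ∀ i, 0 ≤ ⟪N i, (x : E4)⟫ := by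
  have key : ∀ a : Fin 4 → ℝ, ∀ i, ⟪N i, ∑ j, a j • v j⟫ = a i * ⟪N i, v i⟫ := by
    intro a i
    rw [inner_sum, Finset.sum_eq_single i]
    · rw [inner_smul_right]
    · intro j _ hj
      rw [inner_smul_right, h0 i j (Ne.symm hj), mul_zero]
    · simp
  constructor
  · rintro ⟨a, ha, hx⟩ i
    rw [hx, key]
    exact mul_nonneg (ha i) (h1 i).le
  · intro h
    have hli := indep_of_dual h0 h1
    have hspan : Submodule.span ℝ (Set.range v) = ⊤ :=
      hli.span_eq_top_of_card_eq_finrank' (by simp)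
    have hx : (x : E4) ∈ Submodule.span ℝ (Set.range v) := by rw [hspan]; trivial
    obtain ⟨a, ha⟩ := (Submodule.mem_span_range_iff_exists_fun ℝ).1 hx
    refine ⟨a, fun i => ?_, ha.symm⟩
    have h2 := h i
    rw [← ha, key] at h2
    exact nonneg_of_mul_nonneg_left h2 (h1 i)

end Dual

/-! ## The family -/

section Family

variable (b : OrthonormalBasis (Fin 4) ℝ E4)

/-- The vector with coordinates `x, y, z, w` in the orthonormal basis `b`. -/
noncomputable def vec (x y z w : ℝ) : E4 := b.repr.symm (WithLp.toLp 2 ![x, y, z, w])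

lemma inner_vec (x y z w x' y' z' w' : ℝ) :
    ⟪vec b x y z w, vec b x' y' z' w'⟫ = x * x' + y * y' + z * z' + w * w' := by
  unfold vec
  rw [LinearIsometryEquiv.inner_map_map, PiLp.inner_apply, Fin.sum_univ_four]
  simp
  ring

lemma vec_c : b 3 = vec b 0 0 0 1 := by
  unfold vec
  rw [LinearIsometryEquiv.eq_symm_apply, b.repr_self]
  ext i
  fin_cases i <;> simp

/-- The angular radius of the three equal caps. -/
noncomputable def th (ψ : ℝ) : ℝ := Real.arcsin (Real.sqrt 3 / 2 * Real.sin ψ)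

/-- The angular radii of the four caps. -/
noncomputable def rad (ψ : ℝ) : Fin 4 → ℝ := ![Real.pi - ψ - th ψ, th ψ, th ψ, th ψ]

/-- The directions of the centres of the four caps. -/
noncomputable def dir (ψ : ℝ) : Fin 4 → E4 :=
  ![vec b 0 0 (-1) 0, vec b (Real.sin ψ) 0 (Real.cos ψ) 0,
    vec b (-(Real.sin ψ / 2)) (Real.sqrt 3 / 2 * Real.sin ψ) (Real.cos ψ) 0,
    vec b (-(Real.sin ψ / 2)) (-(Real.sqrt 3 / 2 * Real.sin ψ)) (Real.cos ψ) 0]

/-- The (non-normalised) vertices. -/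
noncomputable def vert (r ψ : ℝ) (i : Fin 4) : E4 :=
  dir b ψ i + (Real.cos r / Real.sin r * Real.cos (rad ψ i)) • b 3

/-- Normal vectors of the faces. -/
noncomputable def nor (r ψ : ℝ) : Fin 4 → E4 :=
  ![vec b 0 0 (-Real.cos (th ψ)) (Real.tan r * Real.cos ψ),
    vec b (2 * Real.sin (ψ + th ψ)) 0 (-Real.cos (ψ + th ψ)) (Real.tan r),
    vec b (-Real.sin (ψ + th ψ)) (Real.sqrt 3 * Real.sin (ψ + th ψ)) (-Real.cos (ψ + th ψ))
      (Real.tan r),
    vec b (-Real.sin (ψ + th ψ)) (-(Real.sqrt 3 * Real.sin (ψ + th ψ))) (-Real.cos (ψ + th ψ))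
      (Real.tan r)]

variable {ψ : ℝ}

lemma sin_th (h0 : 0 < ψ) (h1 : ψ < Real.pi) :
    Real.sin (th ψ) = Real.sqrt 3 / 2 * Real.sin ψ := by
  have hs := Real.sin_pos_of_pos_of_lt_pi h0 h1
  have hs1 := Real.sin_le_one ψ
  have h3 : Real.sqrt 3 < 2 := by
    rw [Real.sqrt_lt' (by norm_num)]; norm_num
  have h30 : 0 < Real.sqrt 3 := Real.sqrt_pos.2 (by norm_num)
  apply Real.sin_arcsin
  · nlinarith
  · nlinarith

lemma th_pos (h0 : 0 < ψ) (h1 : ψ < Real.pi) : 0 < th ψ := by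
  have hs := Real.sin_pos_of_pos_of_lt_pi h0 h1
  exact Real.arcsin_pos.2 (by positivity)

lemma th_lt (h0 : 0 < ψ) (h1 : ψ < Real.pi) : th ψ < Real.pi / 2 := by
  have hs := Real.sin_pos_of_pos_of_lt_pi h0 h1
  have hs1 := Real.sin_le_one ψ
  have h3 : Real.sqrt 3 < 2 := by
    rw [Real.sqrt_lt' (by norm_num)]; norm_num
  exact Real.arcsin_lt_pi_div_two.2 (by nlinarith)

lemma add_th_lt (h0 : 0 < ψ) (h1 : ψ < Real.pi) : ψ + th ψ < Real.pi := by
  have hs := Real.sin_pos_of_pos_of_lt_pi h0 h1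
  have h3 : Real.sqrt 3 < 2 := by
    rw [Real.sqrt_lt' (by norm_num)]; norm_num
  rcases le_or_gt (Real.pi / 2) ψ with h | h
  · have : th ψ < Real.pi - ψ := by
      have h2 : Real.arcsin (Real.sin (Real.pi - ψ)) = Real.pi - ψ :=
        Real.arcsin_sin (by linarith) (by linarith)
      rw [← h2]
      refine Real.arcsin_lt_arcsin ?_ ?_ (Real.sin_le_one _)
      · have := Real.sqrt_nonneg 3
        nlinarith
      · rw [Real.sin_pi_sub]; nlinarith
    linarith
  · linarith [th_lt h0 h1]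

lemma rad_pos (h0 : 0 < ψ) (h1 : ψ < Real.pi) (i : Fin 4) : 0 < rad ψ i := by
  have a1 := th_pos h0 h1
  have a2 := add_th_lt h0 h1
  fin_cases i <;> simp [rad] <;> linarith

lemma rad_add (h0 : 0 < ψ) (h1 : ψ < Real.pi) (i j : Fin 4) (hij : i ≠ j) :
    rad ψ i + rad ψ j < Real.pi := by
  have a1 := th_lt h0 h1
  fin_cases i <;> fin_cases j <;> simp [rad] at hij ⊢ <;> linarith

lemma norm_dir (i : Fin 4) : ‖dir b ψ i‖ = 1 := by
  have h3 : Real.sqrt 3 ^ 2 = 3 := Real.sq_sqrt (by norm_num)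
  have hsc := Real.sin_sq_add_cos_sq ψ
  have key : ∀ v : E4, ⟪v, v⟫ = 1 → ‖v‖ = 1 := by
    intro v hv
    rw [real_inner_self_eq_norm_sq] at hv
    nlinarith [norm_nonneg v]
  apply key
  fin_cases i <;> simp only [dir, Fin.zero_eta, Fin.mk_one, Fin.reduceFinMk, Matrix.cons_val,
    Matrix.cons_val_zero, Matrix.cons_val_one, inner_vec]
  · norm_num
  · linear_combination hsc
  · linear_combination hsc + Real.sin ψ ^ 2 / 4 * h3
  · linear_combination hsc + Real.sin ψ ^ 2 / 4 * h3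

lemma inner_dir_c (i : Fin 4) : ⟪dir b ψ i, b 3⟫ = 0 := by
  rw [vec_c]
  fin_cases i <;> simp only [dir, Fin.zero_eta, Fin.mk_one, Fin.reduceFinMk, Matrix.cons_val,
    Matrix.cons_val_zero, Matrix.cons_val_one, inner_vec] <;> ring

lemma inner_dir (h0 : 0 < ψ) (h1 : ψ < Real.pi) (i j : Fin 4) (hij : i ≠ j) :
    ⟪dir b ψ i, dir b ψ j⟫ = Real.cos (rad ψ i + rad ψ j) := by
  have h3 : Real.sqrt 3 ^ 2 = 3 := Real.sq_sqrt (by norm_num)
  have hsc := Real.sin_sq_add_cos_sq ψ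
  have hc2 : Real.cos (th ψ + th ψ) = 1 - 3 / 2 * Real.sin ψ ^ 2 := by
    rw [← two_mul, Real.cos_two_mul, Real.cos_sq', sin_th h0 h1]
    linear_combination - Real.sin ψ ^ 2 / 2 * h3
  have hc1 : Real.cos (Real.pi - ψ - th ψ + th ψ) = -Real.cos ψ := by
    rw [sub_add_cancel, Real.cos_pi_sub]
  have hc1' : Real.cos (th ψ + (Real.pi - ψ - th ψ)) = -Real.cos ψ := by
    rw [add_comm, hc1]
  fin_cases i <;> fin_cases j <;> first | exact absurd rfl hij | skip
  all_goals
    simp only [dir, rad, Fin.zero_eta, Fin.mk_one, Fin.reduceFinMk, Matrix.cons_val,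
      Matrix.cons_val_zero, Matrix.cons_val_one, inner_vec, hc1, hc1', hc2]
  all_goals first
    | ring1
    | linear_combination hsc
    | linear_combination hsc - Real.sin ψ ^ 2 / 4 * h3

lemma inner_nor_vert_ne {r : ℝ} (hs : Real.sin r ≠ 0) (hc : Real.cos r ≠ 0) (i j : Fin 4)
    (hij : i ≠ j) : ⟪nor b r ψ i, vert b r ψ j⟫ = 0 := by
  have h3 : Real.sqrt 3 ^ 2 = 3 := Real.sq_sqrt (by norm_num)
  have hκ : Real.tan r * (Real.cos r / Real.sin r) = 1 := by
    rw [Real.tan_eq_sin_div_cos]; field_simp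
  have e1 : Real.cos (Real.pi - ψ - th ψ) = -Real.cos (ψ + th ψ) := by
    rw [sub_sub, Real.cos_pi_sub]
  have e2 : Real.cos (th ψ) = Real.cos (ψ + th ψ) * Real.cos ψ
      + Real.sin (ψ + th ψ) * Real.sin ψ := by
    rw [← Real.cos_sub]; congr 1; ring
  simp only [vert, vec_c]
  fin_cases i <;> fin_cases j <;> first | exact absurd rfl hij | skip
  all_goals
    simp only [dir, rad, nor, Fin.zero_eta, Fin.mk_one, Fin.reduceFinMk, Matrix.cons_val,
      Matrix.cons_val_zero, Matrix.cons_val_one, inner_add_right, inner_smul_right, inner_vec, e1]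
  all_goals first
    | ring1
    | linear_combination (Real.cos (th ψ) * Real.cos ψ) * hκ
    | linear_combination (-Real.cos (ψ + th ψ)) * hκ
    | linear_combination (Real.cos (th ψ)) * hκ + e2
    | linear_combination (Real.cos (th ψ)) * hκ + e2
        + (Real.sin (ψ + th ψ) * Real.sin ψ / 2) * h3
    | linear_combination (Real.cos (th ψ)) * hκ + e2
        - (Real.sin (ψ + th ψ) * Real.sin ψ / 2) * h3

lemma inner_nor_vert_self {r : ℝ} (hs : Real.sin r ≠ 0) (hc : Real.cos r ≠ 0)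
    (h0 : 0 < ψ) (h1 : ψ < Real.pi) (i : Fin 4) : 0 < ⟪nor b r ψ i, vert b r ψ i⟫ := by
  have h3 : Real.sqrt 3 ^ 2 = 3 := Real.sq_sqrt (by norm_num)
  have hκ : Real.tan r * (Real.cos r / Real.sin r) = 1 := by
    rw [Real.tan_eq_sin_div_cos]; field_simp
  have e1 : Real.cos (Real.pi - ψ - th ψ) = -Real.cos (ψ + th ψ) := by
    rw [sub_sub, Real.cos_pi_sub]
  have e2 : Real.cos (th ψ) = Real.cos (ψ + th ψ) * Real.cos ψ
      + Real.sin (ψ + th ψ) * Real.sin ψ := by
    rw [← Real.cos_sub]; congr 1; ring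
  have hp : 0 < Real.sin (ψ + th ψ) * Real.sin ψ :=
    mul_pos (Real.sin_pos_of_pos_of_lt_pi (by linarith [th_pos h0 h1]) (add_th_lt h0 h1))
      (Real.sin_pos_of_pos_of_lt_pi h0 h1)
  have hq : ⟪nor b r ψ i, vert b r ψ i⟫ = (if i = 0 then 1 else 3)
      * (Real.sin (ψ + th ψ) * Real.sin ψ) := by
    simp only [vert, vec_c]
    fin_cases i
    all_goals
      simp only [dir, rad, nor, Fin.zero_eta, Fin.mk_one, Fin.reduceFinMk, Matrix.cons_val,
        Matrix.cons_val_zero, Matrix.cons_val_one, inner_add_right, inner_smul_right, inner_vec,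
        e1]
    · simp only [if_true]
      linear_combination (-Real.cos (ψ + th ψ) * Real.cos ψ) * hκ + e2
    · rw [if_neg (by decide)]
      linear_combination (Real.cos (th ψ)) * hκ + e2
    · rw [if_neg (by decide)]
      linear_combination (Real.cos (th ψ)) * hκ + e2
        + (Real.sin (ψ + th ψ) * Real.sin ψ / 2) * h3
    · rw [if_neg (by decide)]
      linear_combination (Real.cos (th ψ)) * hκ + e2
        + (Real.sin (ψ + th ψ) * Real.sin ψ / 2) * h3
  rw [hq]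
  split_ifs <;> positivity

lemma vert_ne_zero {r : ℝ} (hs : Real.sin r ≠ 0) (hc : Real.cos r ≠ 0)
    (h0 : 0 < ψ) (h1 : ψ < Real.pi) (i : Fin 4) : vert b r ψ i ≠ 0 := by
  intro h
  have := inner_nor_vert_self b hs hc h0 h1 i
  rw [h, inner_zero_right] at this
  exact lt_irrefl _ this

/-- The vertices of the family. -/
noncomputable def unitVert (r ψ : ℝ) (i : Fin 4) : E4 := ‖vert b r ψ i‖⁻¹ • vert b r ψ i

lemma dual_ne {r : ℝ} (hs : Real.sin r ≠ 0) (hc : Real.cos r ≠ 0) (i j : Fin 4)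
    (hij : i ≠ j) : ⟪nor b r ψ i, unitVert b r ψ j⟫ = 0 := by
  rw [unitVert, inner_smul_right, inner_nor_vert_ne b hs hc i j hij, mul_zero]

lemma dual_pos {r : ℝ} (hs : Real.sin r ≠ 0) (hc : Real.cos r ≠ 0)
    (h0 : 0 < ψ) (h1 : ψ < Real.pi) (i : Fin 4) : 0 < ⟪nor b r ψ i, unitVert b r ψ i⟫ := by
  rw [unitVert, inner_smul_right]
  exact mul_pos (inv_pos.2 (norm_pos_iff.2 (vert_ne_zero b hs hc h0 h1 i)))
    (inner_nor_vert_self b hs hc h0 h1 i)

theorem midscribed {r : ℝ} (hr0 : 0 < r) (hr1 : r < Real.pi) (hr2 : r ≠ Real.pi / 2)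
    (h0 : 0 < ψ) (h1 : ψ < Real.pi) : SphMidscribed (b 3) r (unitVert b r ψ) := by
  have hs : Real.sin r ≠ 0 := (Real.sin_pos_of_pos_of_lt_pi hr0 hr1).ne'
  have hc : Real.cos r ≠ 0 := by
    intro h
    rcases lt_or_gt_of_ne hr2 with h2 | h2
    · exact (Real.cos_pos_of_mem_Ioo ⟨by linarith, h2⟩).ne' h
    · exact (Real.cos_neg_of_pi_div_two_lt_of_lt h2 (by linarith)).ne h
  refine ⟨fun i => ?_, indep_of_dual (dual_ne b hs hc) (dual_pos b hs hc h0 h1), ?_, ?_⟩
  · rw [unitVert, norm_smul, norm_inv, norm_norm,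
      inv_mul_cancel₀ (norm_ne_zero_iff.2 (vert_ne_zero b hs hc h0 h1 i))]
  · refine ⟨∑ j, nor b r ψ j, fun i => ?_⟩
    rw [sum_inner, Finset.sum_eq_single i]
    · exact dual_pos b hs hc h0 h1 i
    · intro j _ hj
      exact dual_ne b hs hc j i hj
    · simp
  · intro i j hij
    exact sph_tangent_of_caps (b.norm_eq_one 3) (norm_dir b i) (norm_dir b j)
      (inner_dir_c b i) (inner_dir_c b j) (rad_pos h0 h1 i) (rad_pos h0 h1 j)
      (rad_add h0 h1 i j hij) (inner_dir b h0 h1 i j hij) hr0 hr1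
      (inv_pos.2 (norm_pos_iff.2 (vert_ne_zero b hs hc h0 h1 i)))
      (inv_pos.2 (norm_pos_iff.2 (vert_ne_zero b hs hc h0 h1 j)))

lemma th_continuous : Continuous th := by
  unfold th
  fun_prop

lemma th_zero : th 0 = 0 := by simp [th]

lemma th_pi : th Real.pi = 0 := by simp [th]

lemma inner_nor_continuous (r : ℝ) (x : E4) (i : Fin 4) :
    Continuous fun ψ => ⟪nor b r ψ i, x⟫ := by
  obtain ⟨x0, x1, x2, x3, rfl⟩ : ∃ x0 x1 x2 x3, x = vec b x0 x1 x2 x3 := by
    refine ⟨b.repr x 0, b.repr x 1, b.repr x 2, b.repr x 3, ?_⟩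
    unfold vec
    rw [LinearIsometryEquiv.eq_symm_apply]
    ext i
    fin_cases i <;> simp
  have := th_continuous
  fin_cases i <;>
    simp only [nor, Fin.zero_eta, Fin.mk_one, Fin.reduceFinMk, Matrix.cons_val,
      Matrix.cons_val_zero, Matrix.cons_val_one, inner_vec] <;> fun_prop

/-- Limit half space at `ψ = 0`. -/
lemma nor_zero (r : ℝ) (i : Fin 4) : nor b r 0 i = vec b 0 0 (-1) (Real.tan r) := by
  fin_cases i <;> simp [nor, th_zero]

lemma nor_pi_zero (r : ℝ) : nor b r Real.pi 0 = vec b 0 0 (-1) (-Real.tan r) := by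
  simp [nor, th_pi]

lemma nor_pi_one (r : ℝ) : nor b r Real.pi 1 = vec b 0 0 1 (Real.tan r) := by
  simp [nor, th_pi]

end Family

end Pool.Agent.Hhelper43.Mid
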